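import Pool.Agent.Helper51.EA.Defs
import Pool.Agent.Helper5.RS.NearB

/-!
# Block C6: the parameters at one point of small complexity, below the square root barrier

The proof of `near_point` (`Pool/Agent/Helper5/RS/NearB.lean`) with `v = Λ^(2 - 1/200)` and
`c = √N Λ^(1/2 - 1/2000)`: the ratio of the third term is at most `24 Λ^(-7/2000) ≤ Λ^(-1/400)`.
-/

set_option autoImplicit false

namespace Pool.Agent.Helper51.EA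

open Finset Pool.Agent.Helper5.RM Pool.Agent.Helper5.RS

/-- the second term -/
private lemma npB_term2_63 (L W1 LN b : ℝ) (C1 K κ0 : ℕ) (hκ : κ0 = 2 * C1 + K + 4) (hL : 32 ≤ L) (hW0 : 0 ≤ W1)
    (hW1 : W1 ≤ 1) (hLN : LN ≤ 3 * L) (hb0 : 0 ≤ b) (hb : b ≤ 2 * L ^ C1) :
    W1 * LN * (2 / L ^ κ0 + 2 * (2 * Real.pi * b / L ^ κ0 + 2 * Real.pi / L ^ κ0) ^ 2) ≤
      1 / (3 * L ^ K) := by
  have hL1 : (1 : ℝ) ≤ L := by linarith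
  have hL0 : (0 : ℝ) < L := by linarith
  have hpi := Real.pi_pos
  have hpi2 : Real.pi < 3.15 := Real.pi_lt_d2
  have hA1 : (1 : ℝ) ≤ L ^ C1 := one_le_pow₀ hL1
  have hκp : (0 : ℝ) < L ^ κ0 := by positivity
  have hκ1 : (1 : ℝ) ≤ L ^ κ0 := one_le_pow₀ hL1
  have h1 : 2 * Real.pi * b / L ^ κ0 + 2 * Real.pi / L ^ κ0 ≤ 20 * L ^ C1 / L ^ κ0 := by
    rw [← add_div]
    apply div_le_div_of_nonneg_right _ hκp.le
    nlinarith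
  have h0 : 0 ≤ 2 * Real.pi * b / L ^ κ0 + 2 * Real.pi / L ^ κ0 := by positivity
  have h2 : (2 * Real.pi * b / L ^ κ0 + 2 * Real.pi / L ^ κ0) ^ 2 ≤ 400 * (L ^ C1) ^ 2 / L ^ κ0 := by
    calc _ ≤ (20 * L ^ C1 / L ^ κ0) ^ 2 := pow_le_pow_left₀ h0 h1 2
      _ = 400 * (L ^ C1) ^ 2 / (L ^ κ0 * L ^ κ0) := by
          rw [div_pow]; ring
      _ ≤ _ := by
          apply div_le_div_of_nonneg_left (by positivity) hκp
          nlinarith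
  have h3 : 2 / L ^ κ0 + 2 * (2 * Real.pi * b / L ^ κ0 + 2 * Real.pi / L ^ κ0) ^ 2 ≤
      802 * (L ^ C1) ^ 2 / L ^ κ0 := by
    have h4 : 2 / L ^ κ0 ≤ 2 * (L ^ C1) ^ 2 / L ^ κ0 := by
      apply div_le_div_of_nonneg_right _ hκp.le
      nlinarith
    have h5 : 802 * (L ^ C1) ^ 2 / L ^ κ0 = 2 * (L ^ C1) ^ 2 / L ^ κ0 + 2 * (400 * (L ^ C1) ^ 2 / L ^ κ0) := by
      ring
    rw [h5]
    linarith
  have h3' : 0 ≤ 2 / L ^ κ0 + 2 * (2 * Real.pi * b / L ^ κ0 + 2 * Real.pi / L ^ κ0) ^ 2 := by positivity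
  have h6 : W1 * LN ≤ 3 * L := by nlinarith
  have h7 : W1 * LN * (2 / L ^ κ0 + 2 * (2 * Real.pi * b / L ^ κ0 + 2 * Real.pi / L ^ κ0) ^ 2) ≤
      3 * L * (802 * (L ^ C1) ^ 2 / L ^ κ0) :=
    mul_le_mul h6 h3 h3' (by positivity)
  refine h7.trans ?_
  have h8 : L ^ κ0 = (L ^ C1) ^ 2 * L ^ K * L ^ 4 := by
    rw [hκ]; ring
  rw [h8]
  have hC : (0 : ℝ) < (L ^ C1) ^ 2 := by positivity
  have hK : (0 : ℝ) < L ^ K := by positivity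
  have h9 : 3 * L * (802 * (L ^ C1) ^ 2 / ((L ^ C1) ^ 2 * L ^ K * L ^ 4)) = 2406 / (L ^ K * L ^ 3) := by
    field_simp
    norm_num
  rw [h9, div_le_div_iff₀ (by positivity) (by positivity)]
  have h10 : (32 : ℝ) ^ 3 ≤ L ^ 3 := pow_le_pow_left₀ (by norm_num) hL 3
  nlinarith

/-- the third term -/
private lemma npB_term3_63 (L N S0 : ℝ) (k K : ℕ) (hk : ((K : ℝ) + 1) ≤ k * (1 / 400)) (hL : 32 ≤ L)
    (hN : 0 < N) (hLe : 24 ≤ L ^ (1 / 1000 : ℝ)) (hS0 : 0 ≤ S0) (hS : S0 ≤ L ^ (-1 + (1 / 1000 : ℝ) / 2)) :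
    (4 * (4 * N * S0 * L ^ (2 - 1 / 200 : ℝ) + 2 * N) / (Real.sqrt N * L ^ (1 / 2 - 1 / 2000 : ℝ)) ^ 2) ^ k ≤
      1 / (3 * L ^ K) := by
  have hL0 : (0 : ℝ) < L := by linarith
  have hL1 : (1 : ℝ) ≤ L := by linarith
  have hc : (Real.sqrt N * L ^ (1 / 2 - 1 / 2000 : ℝ)) ^ 2 = N * L ^ (1 - 1 / 1000 : ℝ) := by
    rw [mul_pow, Real.sq_sqrt hN.le, ← Real.rpow_natCast (L ^ (1 / 2 - 1 / 2000 : ℝ)) 2, ← Real.rpow_mul hL0.le]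
    congr 2
    push_cast
    ring
  have h1 : 4 * (4 * N * S0 * L ^ (2 - 1 / 200 : ℝ) + 2 * N) / (Real.sqrt N * L ^ (1 / 2 - 1 / 2000 : ℝ)) ^ 2 ≤
      L ^ (-(1 / 400) : ℝ) := by
    rw [hc, div_le_iff₀ (by positivity)]
    have e1 : L ^ (-(1 / 400) : ℝ) * (N * L ^ (1 - 1 / 1000 : ℝ)) = N * L ^ (1 - 7 / 2000 : ℝ) := by
      have : L ^ (-(1 / 400) : ℝ) * L ^ (1 - 1 / 1000 : ℝ) = L ^ (1 - 7 / 2000 : ℝ) := by
        rw [← Real.rpow_add hL0]; congr 1; ring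
      rw [← this]; ring
    have e2 : L ^ (-1 + (1 / 1000 : ℝ) / 2) * L ^ (2 - 1 / 200 : ℝ) = L ^ (1 - 9 / 2000 : ℝ) := by
      rw [← Real.rpow_add hL0]; congr 1; ring
    have e3 : L ^ (1 - 7 / 2000 : ℝ) = L ^ (1 - 9 / 2000 : ℝ) * L ^ (1 / 1000 : ℝ) := by
      rw [← Real.rpow_add hL0]; congr 1; ring
    have e4 : (1 : ℝ) ≤ L ^ (1 - 9 / 2000 : ℝ) := Real.one_le_rpow hL1 (by norm_num)
    have e5 : S0 * L ^ (2 - 1 / 200 : ℝ) ≤ L ^ (1 - 9 / 2000 : ℝ) := by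
      rw [← e2]
      exact mul_le_mul_of_nonneg_right hS (by positivity)
    rw [e1, e3]
    have e6 : 24 * L ^ (1 - 9 / 2000 : ℝ) ≤ L ^ (1 - 9 / 2000 : ℝ) * L ^ (1 / 1000 : ℝ) := by nlinarith
    have e7 : 4 * (4 * N * S0 * L ^ (2 - 1 / 200 : ℝ) + 2 * N) =
        N * (16 * (S0 * L ^ (2 - 1 / 200 : ℝ)) + 8) := by ring
    rw [e7]
    apply mul_le_mul_of_nonneg_left _ hN.le
    linarith
  have h0 : 0 ≤ 4 * (4 * N * S0 * L ^ (2 - 1 / 200 : ℝ) + 2 * N) /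
      (Real.sqrt N * L ^ (1 / 2 - 1 / 2000 : ℝ)) ^ 2 := by
    positivity
  refine (pow_le_pow_left₀ h0 h1 k).trans ?_
  rw [← Real.rpow_natCast (L ^ (-(1 / 400) : ℝ)) k, ← Real.rpow_mul hL0.le]
  have h2 : L ^ (-(1 / 400) * (k : ℝ)) ≤ L ^ (-((K : ℝ) + 1)) :=
    Real.rpow_le_rpow_of_exponent_le hL1 (by nlinarith)
  refine h2.trans ?_
  rw [Real.rpow_neg hL0.le, Real.rpow_add hL0, Real.rpow_natCast, Real.rpow_one, ← one_div]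
  have hK : (0 : ℝ) < L ^ K := by positivity
  apply one_div_le_one_div_of_le (by positivity)
  nlinarith

theorem near_point2 (C1 K : ℕ) : ∃ (κ0 i0 : ℕ), ∀ i : ℕ, i0 ≤ i → ∃ z : ℕ, ∀ (N q a : ℕ) (x : ℝ),
    2 ^ 2 ^ i ≤ N → N ≤ 2 ^ (2 * 2 ^ i) → 1 ≤ q → q ≤ (2 ^ i) ^ C1 → Nat.Coprime a q →
    N * |x - (a : ℝ) / q| ≤ 2 * ((2 : ℝ) ^ i) ^ C1 →
      pr (PP (2 ^ (2 * 2 ^ i))) (fun T =>
        Good z (2 ^ (2 * 2 ^ i)) (2 ^ (4 * 2 ^ i)) (2 ^ (κ0 * i)) ((2 ^ i) ^ C1) (3 * (2 ^ i) ^ C1)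
          (((2 : ℝ) ^ i) ^ (2 - 1 / 200 : ℝ)) T ∧
        Real.sqrt N * ((2 : ℝ) ^ i) ^ (1 / 2 - 1 / 2000 : ℝ) < ‖SN N T x‖) ≤ 1 / ((2 : ℝ) ^ i) ^ K := by
  obtain ⟨ε, hεd⟩ : ∃ ε : ℝ, ε = 1 / 1000 := ⟨_, rfl⟩
  have hε : 0 < ε := by rw [hεd]; norm_num
  obtain ⟨k, hk⟩ : ∃ k : ℕ, k = 400 * (K + 1) := ⟨_, rfl⟩
  have hk1 : 1 ≤ k := by omega
  have hkε : (K : ℝ) + 1 ≤ k * (1 / 400) := by
    rw [hk]; push_cast; linarith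
  obtain ⟨C, hC, hRB⟩ := rough_blocks (2 * k - 1)
  obtain ⟨W, hW⟩ : ∃ W : ℕ, W = 2 * k - 1 := ⟨_, rfl⟩
  obtain ⟨κ0, hκ0⟩ : ∃ κ0 : ℕ, κ0 = 2 * C1 + K + 4 := ⟨_, rfl⟩
  have hWp : (0 : ℝ) < 1 + 4 * (W : ℝ) := by positivity
  obtain ⟨δ, hδ⟩ : ∃ δ : ℝ, δ = min (1 / 4) (min (ε / 4) (1 / 2) / (1 + 4 * (W : ℝ))) := ⟨_, rfl⟩
  have hm : 0 < min (ε / 4) ((1 : ℝ) / 2) := lt_min (by positivity) (by norm_num)
  have hδ0 : 0 < δ := by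
    rw [hδ]
    exact lt_min (by norm_num) (by positivity)
  have hδ1 : δ ≤ 1 / 4 := by rw [hδ]; exact min_le_left _ _
  have hδm : (1 + 4 * (W : ℝ)) * δ ≤ min (ε / 4) (1 / 2) := by
    have : δ ≤ min (ε / 4) (1 / 2) / (1 + 4 * (W : ℝ)) := by rw [hδ]; exact min_le_right _ _
    rw [le_div_iff₀ hWp] at this
    linarith
  have hδ2 := hδm.trans (min_le_left _ _)
  have hδ3 := hδm.trans (min_le_right _ _)
  obtain ⟨i1, hi1⟩ := asym C1 K κ0 W C ε δ hC hε hδ0 hδ1 hδ2 hδ3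
  refine ⟨κ0, i1 + 5000, fun i hi => ?_⟩
  obtain ⟨z, hz4, hzκ, hzC, hzM, hκi, hz2, hzN⟩ := hi1 i (by omega)
  refine ⟨z, fun N q a x hN1 hN2 hq hqC ha hβ => ?_⟩
  have hi5 : 5 ≤ i := by omega
  have hL32 : (32 : ℝ) ≤ (2 : ℝ) ^ i := by
    calc (32 : ℝ) = 2 ^ 5 := by norm_num
      _ ≤ 2 ^ i := pow_le_pow_right₀ (by norm_num) hi5
  obtain ⟨L, hL⟩ : ∃ L : ℝ, L = (2 : ℝ) ^ i := ⟨_, rfl⟩
  rw [← hL] at hL32 hβ
  have hL0 : (0 : ℝ) < L := by linarith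
  have hL1 : (1 : ℝ) ≤ L := by linarith
  obtain ⟨hS1, hS2, hS3⟩ := hzN N hN1 hN2
  obtain ⟨S0, hS0⟩ : ∃ S0 : ℝ, S0 = C * (1 + Real.log (4 * N) / Real.log z) ^ (4 * W) / Real.log z := ⟨_, rfl⟩
  rw [← hS0, ← hL] at hS1
  rw [← hS0] at hS2
  rw [← hL] at hS3
  have hN : 1 ≤ N := le_trans Nat.one_le_two_pow hN1
  have hNr : (1 : ℝ) ≤ N := by exact_mod_cast hN
  have hN0 : (0 : ℝ) < N := by linarith
  have hz4r : (4 : ℝ) ≤ z := by exact_mod_cast hz4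
  have hlz : 0 < Real.log z := Real.log_pos (by linarith)
  have hl4N : 0 ≤ Real.log (4 * N) := Real.log_nonneg (by linarith)
  have hS00 : 0 ≤ S0 := by rw [hS0]; positivity
  have hLe : 24 ≤ L ^ (1 / 1000 : ℝ) := by
    have h1 : (5 : ℝ) ≤ i * (1 / 1000) := by
      have h2 : (5000 : ℝ) ≤ i := by exact_mod_cast (by omega : 5000 ≤ i)
      linarith
    rw [hL, ← Real.rpow_natCast, ← Real.rpow_mul (by norm_num)]
    calc (24 : ℝ) ≤ (2 : ℝ) ^ (5 : ℝ) := by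
          rw [show (5 : ℝ) = ((5 : ℕ) : ℝ) by norm_num, Real.rpow_natCast]; norm_num
      _ ≤ _ := Real.rpow_le_rpow_of_exponent_le (by norm_num) h1
  obtain ⟨β, hβd⟩ : ∃ β : ℝ, β = x - (a : ℝ) / q := ⟨_, rfl⟩
  rw [← hβd] at hβ
  have hNβ : |(N : ℝ) * β| ≤ 2 * L ^ C1 := by
    rw [abs_mul, abs_of_pos hN0]; exact hβ
  have hLC : (1 : ℝ) ≤ L ^ C1 := one_le_pow₀ hL1
  have h2i : 1 ≤ 2 ^ i := Nat.one_le_two_pow
  have hj : |⌊(N : ℝ) * β⌋| ≤ ((3 * (2 ^ i) ^ C1 : ℕ) : ℤ) := by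
    have h1 : |((⌊(N : ℝ) * β⌋ : ℤ) : ℝ)| ≤ 3 * L ^ C1 := by
      have h2 := Int.floor_le ((N : ℝ) * β)
      have h3 := Int.sub_one_lt_floor ((N : ℝ) * β)
      rw [abs_le] at hNβ ⊢
      constructor
      · linarith
      · linarith
    have h2 : ((|⌊(N : ℝ) * β⌋| : ℤ) : ℝ) ≤ (((3 * (2 ^ i) ^ C1 : ℕ) : ℤ) : ℝ) := by
      rw [Int.cast_abs]
      refine h1.trans (le_of_eq ?_)
      rw [hL]; push_cast; ring
    exact_mod_cast h2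
  have hz2' : ((8 * q * 2 ^ (κ0 * i + 1) : ℕ) : ℝ) ^ 2 ≤ z := by
    refine le_trans (pow_le_pow_left₀ (by positivity) ?_ 2) hz2
    exact_mod_cast Nat.mul_le_mul_right _ (Nat.mul_le_mul_left 8 hqC)
  have hRB' := hRB (κ0 * i) z N q hz4 hN hq hz2'
  rw [← hW, ← hS0] at hRB'
  have hc : 0 < Real.sqrt N * L ^ (1 / 2 - 1 / 2000 : ℝ) := by
    have := Real.sqrt_pos.2 hN0
    positivity
  have hkW : (((2 * k - 1 : ℕ) : ℕ) : ℝ) = (W : ℝ) := by rw [hW]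
  have hmain := near_abs (κ0 * i) k z (2 ^ (2 * 2 ^ i)) (2 ^ (4 * 2 ^ i)) (2 ^ (κ0 * i)) N (2 ^ (2 * 2 ^ i)) q a
    ((2 ^ i) ^ C1) (3 * (2 ^ i) ^ C1) x β ⌊(N : ℝ) * β⌋ (Int.fract ((N : ℝ) * β)) S0 S0 (L ^ (2 - 1 / 200 : ℝ))
    (Real.sqrt N * L ^ (1 / 2 - 1 / 2000 : ℝ)) hk1 hzκ hzM hN hN2 hN2 (by
      calc 2 * N ≤ 2 * 2 ^ (2 * 2 ^ i) := Nat.mul_le_mul_left 2 hN2
        _ = 2 ^ (2 * 2 ^ i + 1) := by ring
        _ ≤ 2 ^ (4 * 2 ^ i) := Nat.pow_le_pow_right (by norm_num) (by omega))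
    Nat.one_le_two_pow (pow_dvd_pow 2 hκi) hq (hqC.trans hzC) hqC ha (by rw [hβd]; ring)
    (Int.floor_add_fract _).symm (Int.fract_nonneg _) (Int.fract_lt_one _).le hj hS00 hS00 (by positivity) hc
    (fun c hc b hb => by rw [hkW]; exact (hRB' c hc).1 b hb)
    (fun c hc => by rw [hkW]; exact (hRB' c hc).2)
  rw [← hL]
  refine hmain.trans ?_
  have hκL : ((2 : ℝ) ^ (κ0 * i)) = L ^ κ0 := by rw [hL, ← pow_mul, mul_comm]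
  have hRs : (((2 ^ (κ0 * i) : ℕ) : ℕ) : ℝ) = L ^ κ0 := by push_cast; exact hκL
  rw [hRs, hκL]
  -- the first term
  have ht1 : 4 * ((Sm z N).card : ℝ) / (Real.sqrt N * L ^ (1 / 2 - 1 / 2000 : ℝ)) ^ 2 ≤ 1 / (3 * L ^ K) := by
    have hc2 : (N : ℝ) ≤ (Real.sqrt N * L ^ (1 / 2 - 1 / 2000 : ℝ)) ^ 2 := by
      rw [mul_pow, Real.sq_sqrt hN0.le]
      have h1 : (1 : ℝ) ≤ L ^ (1 / 2 - 1 / 2000 : ℝ) := Real.one_le_rpow hL1 (by norm_num)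
      exact le_mul_of_one_le_right hN0.le (one_le_pow₀ h1)
    have h1 : 4 * ((Sm z N).card : ℝ) ≤ N / (3 * L ^ K) := by
      refine le_trans ?_ hS3
      exact mul_le_mul_of_nonneg_left (smooth_card z N (by omega) hN) (by norm_num)
    calc 4 * ((Sm z N).card : ℝ) / (Real.sqrt N * L ^ (1 / 2 - 1 / 2000 : ℝ)) ^ 2
        ≤ 4 * ((Sm z N).card : ℝ) / N := by
          apply div_le_div_of_nonneg_left (by positivity) hN0 hc2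
      _ ≤ (N / (3 * L ^ K)) / N := div_le_div_of_nonneg_right h1 hN0.le
      _ = 1 / (3 * L ^ K) := by
          field_simp
  have hLN0 : 0 ≤ LL N := by
    unfold LL
    have := Real.log_nonneg hNr
    linarith
  have hLN : LL N ≤ 3 * L := by
    unfold LL
    have h1 : Real.log N ≤ 2 * L * Real.log 2 := by
      calc Real.log N ≤ Real.log ((2 : ℝ) ^ (2 * 2 ^ i)) := by
            apply Real.log_le_log hN0
            exact_mod_cast hN2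
        _ = 2 * L * Real.log 2 := by
            rw [Real.log_pow, hL]; push_cast; ring
    have h2 : Real.log 2 ≤ 0.7 := by
      have := Real.log_two_lt_d9; linarith
    have h3 : 2 * L * Real.log 2 ≤ 2 * L * 0.7 := mul_le_mul_of_nonneg_left h2 (by positivity)
    linarith
  have ht2 := npB_term2_63 L S0 (LL N) |(N : ℝ) * β| C1 K κ0 hκ0 hL32 hS00 hS2 hLN (abs_nonneg _) hNβ
  have ht3 := npB_term3_63 L N S0 k K hkε hL32 hN0 hLe hS00 (by rw [← hεd]; exact hS1)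
  have hsum : 1 / L ^ K = 1 / (3 * L ^ K) + 1 / (3 * L ^ K) + 1 / (3 * L ^ K) := by
    field_simp
    norm_num
  rw [hsum]
  exact add_le_add (add_le_add ht1 ht2) ht3

end Pool.Agent.Helper51.EA
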